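import Pool.Agent.Lib.MP_144d21_co.X4.Iface

/-!
# X4: module PFAC (monic divisors of `(X - 0) ^ s 0 * ... * (X - k) ^ s k`)
-/

set_option autoImplicit false

namespace Pool.Agent.Xu.X4.H93

open Finset Polynomial

/-- raising one exponent by one -/
theorem PP_update (k : ℕ) (s : ℕ → ℕ) (j : ℕ) (hj : j ≤ k) :
    PP k (Function.update s j (s j + 1)) = (X - C (j : ℤ)) * PP k s := by
  classical
  have hmem : j ∈ range (k + 1) := mem_range.2 (Nat.lt_succ_of_le hj)
  unfold PP
  rw [← mul_prod_erase (range (k + 1)) _ hmem, ← mul_prod_erase (range (k + 1))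
    (fun i => (X - C (i : ℤ)) ^ s i) hmem]
  have h1 : ∏ x ∈ (range (k + 1)).erase j, (X - C (x : ℤ)) ^ Function.update s j (s j + 1) x =
      ∏ x ∈ (range (k + 1)).erase j, (X - C (x : ℤ)) ^ s x := by
    refine prod_congr rfl fun x hx => ?_
    rw [Function.update_of_ne (ne_of_mem_erase hx)]
  rw [h1, Function.update_self, pow_succ]
  ring

theorem pfac_aux (k n : ℕ) : ∀ (s : ℕ → ℕ) (P Q : ℤ[X]), ∑ j ∈ range (k + 1), s j = n →
    P.Monic → Q.Monic → P * Q = PP k s →
    ∃ t u : ℕ → ℕ, P = PP k t ∧ Q = PP k u ∧ ∀ j, t j + u j = s j := by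
  induction n with
  | zero =>
    intro s P Q hs hP hQ h
    have hz : ∀ j ∈ range (k + 1), s j = 0 := (sum_eq_zero_iff).1 hs
    have h1 : PP k s = 1 := by
      unfold PP
      exact prod_eq_one fun j hj => by rw [hz j hj, pow_zero]
    have h0 : PP k (fun _ => 0) = 1 := by
      unfold PP
      exact prod_eq_one fun j _ => pow_zero _
    have hP1 : P = 1 := hP.eq_one_of_isUnit (IsUnit.of_mul_eq_one _ (h.trans h1))
    have hQ1 : Q = 1 := hQ.eq_one_of_isUnit
      (IsUnit.of_mul_eq_one _ ((mul_comm Q P).trans (h.trans h1)))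
    exact ⟨fun _ => 0, s, hP1.trans h0.symm, hQ1.trans h1.symm, fun j => Nat.zero_add _⟩
  | succ n ih =>
    intro s P Q hs hP hQ h
    have hex : ∃ j ∈ range (k + 1), s j ≠ 0 := by
      by_contra hcon
      push Not at hcon
      rw [sum_eq_zero hcon] at hs
      omega
    obtain ⟨j, hj, hsj⟩ := hex
    have hjk : j ≤ k := Nat.lt_succ_iff.1 (mem_range.1 hj)
    set s' : ℕ → ℕ := Function.update s j (s j - 1) with hs'
    have hss : s = Function.update s' j (s' j + 1) := by
      funext x
      by_cases hx : x = j
      · subst hx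
        simp only [hs', Function.update_self]
        omega
      · rw [Function.update_of_ne hx, hs', Function.update_of_ne hx]
    have hPP : PP k s = (X - C (j : ℤ)) * PP k s' := by
      rw [← PP_update k s' j hjk, ← hss]
    have hsum : ∑ x ∈ range (k + 1), s' x = n := by
      have h1 := sum_update_of_mem hj s (s j - 1)
      have h2 := add_sum_erase (range (k + 1)) s hj
      have h3 : (range (k + 1)) \ {j} = (range (k + 1)).erase j := sdiff_singleton_eq_erase j _
      rw [h3] at h1
      rw [hs', h1]
      omega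
    have hroot : (P * Q).IsRoot (j : ℤ) := by
      rw [h, hPP, IsRoot.def, eval_mul]; simp
    have hx : (X - C (j : ℤ) : ℤ[X]) ≠ 0 := X_sub_C_ne_zero _
    rcases root_mul.1 hroot with h1 | h1
    · obtain ⟨P', hP'⟩ := dvd_iff_isRoot.2 h1
      have hP'm : P'.Monic := by
        rw [hP'] at hP
        exact (monic_X_sub_C (j : ℤ)).of_mul_monic_left hP
      have h2 : P' * Q = PP k s' := by
        apply mul_left_cancel₀ hx
        rw [← hPP, ← h, hP']; ring
      obtain ⟨t, u, ht, hu, htu⟩ := ih s' P' Q hsum hP'm hQ h2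
      refine ⟨Function.update t j (t j + 1), u, ?_, hu, fun x => ?_⟩
      · rw [PP_update k t j hjk, ← ht, ← hP']
      · rw [hss]
        by_cases hxj : x = j
        · subst hxj
          rw [Function.update_self, Function.update_self]
          have := htu x
          omega
        · rw [Function.update_of_ne hxj, Function.update_of_ne hxj]
          exact htu x
    · obtain ⟨Q', hQ'⟩ := dvd_iff_isRoot.2 h1
      have hQ'm : Q'.Monic := by
        rw [hQ'] at hQ
        exact (monic_X_sub_C (j : ℤ)).of_mul_monic_left hQ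
      have h2 : P * Q' = PP k s' := by
        apply mul_left_cancel₀ hx
        rw [← hPP, ← h, hQ']; ring
      obtain ⟨t, u, ht, hu, htu⟩ := ih s' P Q' hsum hP hQ'm h2
      refine ⟨t, Function.update u j (u j + 1), ht, ?_, fun x => ?_⟩
      · rw [PP_update k u j hjk, ← hu, ← hQ']
      · rw [hss]
        by_cases hxj : x = j
        · subst hxj
          rw [Function.update_self, Function.update_self]
          have := htu x
          omega
        · rw [Function.update_of_ne hxj, Function.update_of_ne hxj]
          exact htu x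

theorem pfac : PfacS := by
  intro k s P Q hP hQ h
  exact pfac_aux k _ s P Q rfl hP hQ h

end Pool.Agent.Xu.X4.H93
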